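import Pool.Agent.K3h5.IB.Stm

/-!
# The law of large numbers for the first walk (brick LLN, helper91, for helper5)
-/

set_option autoImplicit false

open MeasureTheory Filter Topology ProbabilityTheory

namespace Pool.Agent.K3h91.IB

open Pool.Agent.K3h5.IB

variable {d : ℕ}

theorem vec_bdd (e : D d) (j : Fin d) : |((vec e j : ℤ) : ℝ)| ≤ 1 := by
  unfold vec
  rw [Pi.single_apply]
  split_ifs <;> simp

theorem sum_vec (p : D d → ℝ) (j : Fin d) : ∑ e, p e * ((vec e j : ℤ) : ℝ) = drift p j := by
  rw [Fintype.sum_prod_type]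
  have h : ∀ i : Fin d, ∑ b : Bool, p (i, b) * ((vec (i, b) j : ℤ) : ℝ) =
      if j = i then drift p j else 0 := by
    intro i
    rw [Fintype.sum_bool]
    by_cases h1 : j = i
    · subst h1
      have ht : vec (j, true) j = 1 := by simp [vec]
      have hf : vec (j, false) j = -1 := by simp [vec]
      rw [ht, hf, if_pos rfl]
      unfold drift
      push_cast
      ring
    · have h2 : ∀ b, vec (i, b) j = 0 := fun b => by
        unfold vec
        exact Pi.single_eq_of_ne h1 _
      rw [h2, h2, if_neg h1]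
      simp
  rw [Finset.sum_congr rfl fun i _ => h i]
  simp

theorem lln_coord (hP : S_PROB) (p : ℕ → D d → ℝ) (q : D d → ℝ) (hp : Par p q) (j : Fin d) :
    ∀ᵐ x ∂(PP p q), Tendsto (fun n : ℕ => (path0 x n j : ℝ) / n) atTop (𝓝 (drift (p 0) j)) := by
  obtain ⟨hlam, hnu, hPP, hnone, -⟩ := hP d p q hp
  have hmv : Measurable (fun s : S d => ((vec (s none) j : ℤ) : ℝ)) :=
    (measurable_of_countable (fun e : D d => ((vec e j : ℤ) : ℝ))).comp (measurable_pi_apply none)
  set ξ : ℕ → (ℕ → S d) → ℝ := fun k x => ((vec (x k none) j : ℤ) : ℝ) with hξ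
  have hm : ∀ k, Measurable (ξ k) := fun k => hmv.comp (measurable_pi_apply k)
  have hint : ∀ k, Integrable (ξ k) (PP p q) := fun k =>
    Integrable.of_bound (hm k).aestronglyMeasurable 1 (Filter.Eventually.of_forall fun x => by
      rw [Real.norm_eq_abs]
      exact vec_bdd _ _)
  have hindep : iIndepFun ξ (PP p q) :=
    iIndepFun_infinitePi (P := fun _ : ℕ => nu p q) (X := fun _ s => ((vec (s none) j : ℤ) : ℝ))
      (fun _ => hmv)
  have hid : ∀ k, IdentDistrib (ξ k) (ξ 0) (PP p q) (PP p q) := by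
    intro k
    refine ⟨(hm k).aemeasurable, (hm 0).aemeasurable, ?_⟩
    have h1 : ∀ i : ℕ, Measure.map (ξ i) (PP p q) =
        Measure.map (fun s : S d => ((vec (s none) j : ℤ) : ℝ)) (nu p q) := by
      intro i
      have h2 : ξ i = (fun s : S d => ((vec (s none) j : ℤ) : ℝ)) ∘ (fun x : ℕ → S d => x i) := rfl
      rw [h2, ← Measure.map_map hmv (measurable_pi_apply i)]
      congr 1
      exact Measure.infinitePi_map_eval (fun _ : ℕ => nu p q) i
    rw [h1 k, h1 0]
  have hmean : ∫ x, ξ 0 x ∂(PP p q) = drift (p 0) j := by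
    have h1 : MeasurePreserving (fun x : ℕ → S d => x 0) (PP p q) (nu p q) :=
      measurePreserving_eval_infinitePi (fun _ : ℕ => nu p q) 0
    have h2 : MeasurePreserving (fun s : S d => s none) (nu p q) (lam p q none) :=
      measurePreserving_eval_infinitePi (lam p q) none
    have h3 : MeasurePreserving (fun x : ℕ → S d => x 0 none) (PP p q) (lam p q none) := h2.comp h1
    have h4 : ∫ x, ξ 0 x ∂(PP p q) = ∫ e, ((vec e j : ℤ) : ℝ) ∂(lam p q none) := by
      rw [← h3.map_eq, integral_map h3.measurable.aemeasurable]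
      exact (measurable_of_countable _).aestronglyMeasurable
    rw [h4, integral_fintype]
    · rw [← sum_vec (p 0) j]
      refine Finset.sum_congr rfl fun e _ => ?_
      rw [hnone, smul_eq_mul]
    · have := hlam none
      exact Integrable.of_finite
  have hslln := strong_law_ae_real ξ (hint 0) (fun a b hab => hindep.indepFun hab) hid
  rw [hmean] at hslln
  filter_upwards [hslln] with x hx
  refine hx.congr fun n => ?_
  congr 1
  unfold path0
  rw [Finset.sum_apply]
  push_cast
  rfl

theorem t_LLN : S_PROB → S_LLN := by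
  intro hP d p q hp
  have h1 : ∀ᵐ x ∂(PP p q), ∀ j : Fin d,
      Tendsto (fun n : ℕ => (path0 x n j : ℝ) / n) atTop (𝓝 (drift (p 0) j)) := by
    rw [ae_all_iff]
    exact fun j => lln_coord hP p q hp j
  filter_upwards [h1] with x hx
  have h2 : Tendsto (fun n : ℕ => ht (drift (p 0)) (path0 x n) / n) atTop
      (𝓝 (∑ j, drift (p 0) j ^ 2)) := by
    have h3 : Tendsto (fun n : ℕ => ∑ j, drift (p 0) j * ((path0 x n j : ℝ) / n)) atTop
        (𝓝 (∑ j, drift (p 0) j * drift (p 0) j)) :=
      tendsto_finsetSum _ fun j _ => (hx j).const_mul _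
    refine (h3.congr fun n => ?_).trans (le_of_eq ?_)
    · unfold ht
      rw [Finset.sum_div]
      exact Finset.sum_congr rfl fun j _ => by ring
    · simp only [sq]
  refine ⟨hx, h2, ?_⟩
  have hpos : 0 < ∑ j, drift (p 0) j ^ 2 := by
    obtain ⟨j, hj⟩ := hp.drift
    exact Finset.sum_pos' (fun i _ => sq_nonneg _) ⟨j, Finset.mem_univ _, by positivity⟩
  have h4 : Tendsto (fun n : ℕ => ht (drift (p 0)) (path0 x n)) atTop atTop := by
    have h5 := h2.pos_mul_atTop hpos tendsto_natCast_atTop_atTop
    refine h5.congr' ?_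
    filter_upwards [eventually_gt_atTop 0] with n hn
    have : (n : ℝ) ≠ 0 := by positivity
    field_simp
  intro M
  obtain ⟨N, hN⟩ := eventually_atTop.1 (h4.eventually_gt_atTop M)
  exact ⟨N, hN⟩

end Pool.Agent.K3h91.IB
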